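import Mathlib
import Pool.Agent.MP_d6d719_co.h91.Fin2

set_option autoImplicit false

namespace Pool.Agent.Results.MP_d6d719_co.HalfIsOptimal

open Pool.Agent.MP_d6d719_co

/-- The supremum of the admissible constants is `1/2`. -/
theorem result : IsLUB {μ : ℝ | 0 < μ ∧ Admissible μ} (1 / 2) :=
  isLUB_of_core H91.core

end Pool.Agent.Results.MP_d6d719_co.HalfIsOptimal
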